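import Pool.Agent.H523R2.Corner.Codes

/-!
Potential certificates for corner-free sets: a set of cells of the addition table of a group with
two real functions `f`, `g` on the cells such that `f u + g v > f w + g w` for every nontrivial
corner `(u, v, w)` of cells. Words in the cells with one common type form a rigid set.
-/

namespace Pool.Agent.E8helper26.Corner

open Finset Pool.Agent.H523R2.Corner

/-- A potential certificate. -/
structure PCert {B : Type*} [AddCommGroup B] {m : ℕ} (X Y Z : Fin m → B)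
    (f g : Fin m → ℤ) : Prop where
  sum : ∀ s, X s + Y s + Z s = 0
  inj : ∀ s t, X s = X t → Y s = Y t → s = t
  pos : ∀ a b c, X a = X b → Y a = Y c → Z b = Z c →
    (a = b ∧ a = c) ∨ f c + g c < f a + g b

lemma sum_sameType {N m : ℕ} (f : Fin m → ℤ) (u v : Fin N → Fin m) (h : SameType u v) :
    ∑ i, f (u i) = ∑ i, f (v i) := by
  have key : ∀ w : Fin N → Fin m,
      ∑ i, f (w i) = ∑ s, ((univ.filter (fun i => w i = s)).card : ℤ) * f s := by
    intro w
    rw [← sum_fiberwise (s := (univ : Finset (Fin N))) (g := w) (f := fun i => f (w i))]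
    apply sum_congr rfl
    intro s _
    rw [sum_congr rfl (g := fun _ => f s)]
    · rw [sum_const, nsmul_eq_mul]
    · intro i hi
      rw [(mem_filter.1 hi).2]
  rw [key, key]
  exact sum_congr rfl fun s _ => by rw [h s]

lemma prigid {B : Type*} [AddCommGroup B] {m N : ℕ} {X Y Z : Fin m → B} {f g : Fin m → ℤ}
    (hc : PCert X Y Z f g) (u v w : Fin N → Fin m) (huv : SameType u v) (huw : SameType u w)
    (hX : ∀ i, X (u i) = X (v i)) (hY : ∀ i, Y (u i) = Y (w i)) (hZ : ∀ i, Z (v i) = Z (w i)) :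
    ∀ i, u i = v i ∧ u i = w i := by
  have hle : ∀ i ∈ (univ : Finset (Fin N)), f (w i) + g (w i) ≤ f (u i) + g (v i) := by
    intro i _
    rcases hc.pos (u i) (v i) (w i) (hX i) (hY i) (hZ i) with ⟨h1, h2⟩ | h
    · rw [← h1, ← h2]
    · exact h.le
  have hsum : ∑ i, (f (w i) + g (w i)) = ∑ i, (f (u i) + g (v i)) := by
    rw [sum_add_distrib, sum_add_distrib, sum_sameType f u w huw,
      sum_sameType g v w (fun s => (huv s).symm.trans (huw s))]
  intro i
  have := (sum_eq_sum_iff_of_le hle).1 hsum i (mem_univ i)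
  rcases hc.pos (u i) (v i) (w i) (hX i) (hY i) (hZ i) with h | h
  · exact h
  · exact absurd this h.ne

/-- the rigid set attached to a set of words of one type -/
lemma phasTF_words {B : Type*} [AddCommGroup B] [DecidableEq B] {m N : ℕ} {X Y Z : Fin m → B}
    {f g : Fin m → ℤ} (hc : PCert X Y Z f g) (W : Finset (Fin N → Fin m))
    (hW : ∀ u ∈ W, ∀ v ∈ W, SameType u v) :
    HasTF (Fin N → B) W.card (W.image (fun u => fun i => X (u i))).card
      (W.image (fun u => fun i => Y (u i))).card (W.image (fun u => fun i => Z (u i))).card := by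
  let F : (Fin N → Fin m) → (Fin N → B) × (Fin N → B) × (Fin N → B) :=
    fun u => (fun i => X (u i), fun i => Y (u i), fun i => Z (u i))
  have hF : Function.Injective F := by
    intro u v h
    simp only [F, Prod.mk.injEq] at h
    funext i
    exact hc.inj _ _ (congrFun h.1 i) (congrFun h.2.1 i)
  refine ⟨W.image F, ⟨?_, ?_⟩, ?_, ?_, ?_, ?_⟩
  · intro t ht
    obtain ⟨u, hu, rfl⟩ := mem_image.1 ht
    funext i
    exact hc.sum (u i)
  · intro a' ha' b' hb' c' hc' h1 h2 h3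
    obtain ⟨u, hu, rfl⟩ := mem_image.1 ha'
    obtain ⟨v, hv, rfl⟩ := mem_image.1 hb'
    obtain ⟨w, hw, rfl⟩ := mem_image.1 hc'
    have := prigid hc u v w (hW u hu v hv) (hW u hu w hw) (fun i => congrFun h1 i)
      (fun i => congrFun h2 i) (fun i => congrFun h3 i)
    funext i
    show Z (u i) = Z (v i)
    rw [(this i).1]
  · rw [card_image_of_injective _ hF]
  · rw [image_image]; exact le_rfl
  · rw [image_image]; exact le_rfl
  · rw [image_image]; exact le_rfl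

theorem pexists_good {B : Type*} [AddCommGroup B] [Fintype B] [DecidableEq B] {m : ℕ}
    {X Y Z : Fin m → B} {f g : Fin m → ℤ} (hc : PCert X Y Z f g) (a b c : B → ℝ)
    (ha : ∀ x, 0 ≤ a x) (hb : ∀ x, 0 ≤ b x) (hcc : ∀ x, 0 ≤ c x) (p q : ℕ) (hp : 0 < p) (hq : 0 < q)
    (ha1 : ∑ x, a x ^ p ≤ 1) (hb1 : ∑ x, b x ^ p ≤ 1) (hc1 : ∑ x, c x ^ p ≤ 1)
    (hC : 1 < ∑ s, (a (X s) * b (Y s) * c (Z s)) ^ q) :
    ∃ N t A1 B1 C1 : ℕ, HasTF (Fin N → B) t A1 B1 C1 ∧ 2 * (A1 * B1 * C1) ^ q ≤ t ^ p ∧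
      2 ≤ A1 * B1 * C1 := by
  classical
  set C := ∑ s, (a (X s) * b (Y s) * c (Z s)) ^ q with hCdef
  -- choose N
  obtain ⟨N, hN⟩ : ∃ N : ℕ, 2 * (N + 1 : ℝ) ^ m ≤ C ^ N := by
    have h := tendsto_pow_const_div_const_pow_of_one_lt m hC
    have h2 := (h.comp (Filter.tendsto_add_atTop_nat 1)).eventually
      (gt_mem_nhds (show (0 : ℝ) < 1 / (2 * C) by positivity))
    obtain ⟨N, hN⟩ := h2.exists
    refine ⟨N, ?_⟩
    simp only [Function.comp, Nat.cast_add, Nat.cast_one] at hN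
    have hCpos : (0 : ℝ) < C := by linarith
    rw [div_lt_div_iff₀ (by positivity) (by positivity), pow_succ] at hN
    have : (2 * (N + 1 : ℝ) ^ m) * C ≤ C ^ N * C := by linarith
    exact le_of_mul_le_mul_right this hCpos
  obtain ⟨W, hW, hsum⟩ := exists_type N (fun s => (a (X s) * b (Y s) * c (Z s)) ^ q)
  have hWne : W.Nonempty := by
    by_contra h
    rw [not_nonempty_iff_eq_empty] at h
    rw [h, sum_empty, mul_zero] at hsum
    have : (0 : ℝ) < 2 * (N + 1 : ℝ) ^ m := by positivity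
    linarith
  obtain ⟨u0, hu0⟩ := hWne
  set α := ∏ i, a (X (u0 i)) with hαd
  set β := ∏ i, b (Y (u0 i)) with hβd
  set γ := ∏ i, c (Z (u0 i)) with hγd
  have hα : ∀ u ∈ W, ∏ i, a (X (u i)) = α := fun u hu =>
    prod_sameType (fun s => a (X s)) u u0 (hW u hu u0 hu0)
  have hβ : ∀ u ∈ W, ∏ i, b (Y (u i)) = β := fun u hu =>
    prod_sameType (fun s => b (Y s)) u u0 (hW u hu u0 hu0)
  have hγ : ∀ u ∈ W, ∏ i, c (Z (u i)) = γ := fun u hu =>
    prod_sameType (fun s => c (Z s)) u u0 (hW u hu u0 hu0)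
  have hα0 : 0 ≤ α := prod_nonneg fun i _ => ha _
  have hβ0 : 0 ≤ β := prod_nonneg fun i _ => hb _
  have hγ0 : 0 ≤ γ := prod_nonneg fun i _ => hcc _
  have hsum2 : ∑ u ∈ W, ∏ i, (a (X (u i)) * b (Y (u i)) * c (Z (u i))) ^ q
      = (W.card : ℝ) * (α * β * γ) ^ q := by
    rw [← nsmul_eq_mul, ← sum_const]
    apply sum_congr rfl
    intro u hu
    rw [prod_pow, prod_mul_distrib, prod_mul_distrib, hα u hu, hβ u hu, hγ u hu]
  rw [hsum2] at hsum
  have hNpos : (0 : ℝ) < (N + 1 : ℝ) ^ m := by positivity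
  have ht : 2 ≤ (W.card : ℝ) * (α * β * γ) ^ q := by
    have : (N + 1 : ℝ) ^ m * 2 ≤ (N + 1 : ℝ) ^ m * ((W.card : ℝ) * (α * β * γ) ^ q) := by
      linarith
    exact le_of_mul_le_mul_left this hNpos
  set A1 := (W.image (fun u => fun i => X (u i))).card with hA1
  set B1 := (W.image (fun u => fun i => Y (u i))).card with hB1
  set C1 := (W.image (fun u => fun i => Z (u i))).card with hC1
  have eA : (A1 : ℝ) * α ^ p ≤ 1 := card_image_mul_le X a ha p ha1 W α hα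
  have eB : (B1 : ℝ) * β ^ p ≤ 1 := card_image_mul_le Y b hb p hb1 W β hβ
  have eC : (C1 : ℝ) * γ ^ p ≤ 1 := card_image_mul_le Z c hcc p hc1 W γ hγ
  have hA1pos : 1 ≤ A1 := card_pos.2 ⟨_, mem_image_of_mem _ hu0⟩
  have hB1pos : 1 ≤ B1 := card_pos.2 ⟨_, mem_image_of_mem _ hu0⟩
  have hC1pos : 1 ≤ C1 := card_pos.2 ⟨_, mem_image_of_mem _ hu0⟩
  have one_of : ∀ (k : ℕ) (x : ℝ), 1 ≤ k → 0 ≤ x → (k : ℝ) * x ^ p ≤ 1 → x ≤ 1 := by
    intro k x hk hx h
    by_contra hcon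
    push Not at hcon
    have h1 : 1 < x ^ p := one_lt_pow₀ hcon hp.ne'
    have h2 : (1 : ℝ) ≤ k := by exact_mod_cast hk
    nlinarith
  have hα1 := one_of A1 α hA1pos hα0 eA
  have hβ1 := one_of B1 β hB1pos hβ0 eB
  have hγ1 := one_of C1 γ hC1pos hγ0 eC
  have hπ0 : 0 ≤ α * β * γ := by positivity
  have hπ1 : α * β * γ ≤ 1 := by
    have h1 : α * β ≤ 1 := mul_le_one₀ hα1 hβ0 hβ1
    exact mul_le_one₀ h1 hγ0 hγ1
  have hcard2 : 2 ≤ W.card := by
    have h1 : (α * β * γ) ^ q ≤ 1 := pow_le_one₀ hπ0 hπ1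
    have h2 : (2 : ℝ) ≤ W.card := by
      have h3 : (W.card : ℝ) * (α * β * γ) ^ q ≤ (W.card : ℝ) * 1 :=
        mul_le_mul_of_nonneg_left h1 (Nat.cast_nonneg _)
      linarith
    exact_mod_cast h2
  have hP : ((A1 * B1 * C1 : ℕ) : ℝ) * (α * β * γ) ^ p ≤ 1 := by
    push_cast
    calc (A1 : ℝ) * B1 * C1 * (α * β * γ) ^ p
        = (A1 * α ^ p) * (B1 * β ^ p) * (C1 * γ ^ p) := by ring
      _ ≤ 1 := by
        have h1 : (A1 * α ^ p) * (B1 * β ^ p) ≤ 1 :=
          mul_le_one₀ eA (by positivity) eB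
        exact mul_le_one₀ h1 (by positivity) eC
  refine ⟨N, W.card, A1, B1, C1, phasTF_words hc W hW, ?_, ?_⟩
  · have hπpos : 0 < (α * β * γ) ^ (p * q) := by
      rcases hπ0.eq_or_lt with h | h
      · exfalso
        rw [← h, zero_pow hq.ne', mul_zero] at ht
        linarith
      · exact pow_pos h _
    have h1 : ((A1 * B1 * C1 : ℕ) : ℝ) ^ q * (α * β * γ) ^ (p * q) ≤ 1 := by
      rw [pow_mul, ← mul_pow]
      exact pow_le_one₀ (by positivity) hP
    have h2 : (2 : ℝ) ≤ (W.card : ℝ) ^ p * (α * β * γ) ^ (p * q) := by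
      rw [mul_comm p q, pow_mul, ← mul_pow]
      calc (2 : ℝ) ≤ 2 ^ p := le_self_pow₀ (by norm_num) hp.ne'
        _ ≤ _ := pow_le_pow_left₀ (by norm_num) ht p
    have h3 : (2 * ((A1 * B1 * C1 : ℕ) : ℝ) ^ q) * (α * β * γ) ^ (p * q)
        ≤ (W.card : ℝ) ^ p * (α * β * γ) ^ (p * q) := by nlinarith
    have h4 := le_of_mul_le_mul_right h3 hπpos
    exact_mod_cast h4
  · have h1 : W.card ≤ A1 * B1 := by
      rw [hA1, hB1, ← card_product]
      apply card_le_card_of_injOn (fun u => ((fun i => X (u i)), (fun i => Y (u i))))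
      · intro u hu
        exact mem_product.2 ⟨mem_image_of_mem _ hu, mem_image_of_mem _ hu⟩
      · intro u _ v _ h
        simp only [Prod.mk.injEq] at h
        funext i
        exact hc.inj _ _ (congrFun h.1 i) (congrFun h.2 i)
    calc 2 ≤ A1 * B1 := hcard2.trans h1
      _ ≤ A1 * B1 * C1 := Nat.le_mul_of_pos_right _ hC1pos


theorem pmain {k m : ℕ} {X Y Z : Fin m → (Fin k → ZMod 2)} {f g : Fin m → ℤ}
    (hc : PCert X Y Z f g) (a b c : (Fin k → ZMod 2) → ℝ)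
    (ha : ∀ x, 0 ≤ a x) (hb : ∀ x, 0 ≤ b x) (hcc : ∀ x, 0 ≤ c x) (p q : ℕ) (hp : 0 < p)
    (hq : 0 < q)
    (ha1 : ∑ x, a x ^ p ≤ 1) (hb1 : ∑ x, b x ^ p ≤ 1) (hc1 : ∑ x, c x ^ p ≤ 1)
    (hC : 1 < ∑ s, (a (X s) * b (Y s) * c (Z s)) ^ q) :
    ∃ n0 : ℕ, ∀ n : ℕ, n0 ≤ n → ∃ S : Finset ((Fin n → ZMod 2) × (Fin n → ZMod 2)),
      CornerFree S ∧ 2 ^ (3 * q * n) ≤ S.card ^ p := by
  obtain ⟨N, t, A1, B1, C1, h, h1, h2⟩ := pexists_good hc a b c ha hb hcc p q hp hq ha1 hb1 hc1 hC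
  exact asymptotic h hp h1 h2


end Pool.Agent.E8helper26.Corner
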