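import Pool.Agent.E8helper26.Corner.Pot

/-!
Numerical form of potential certificates, suitable for kernel computation.
-/

namespace Pool.Agent.E8helper26.Corner

open Finset Pool.Agent.H523R2.Corner

/-- `f 0 + ⋯ + f (n - 1)` -/
def sumTo (f : ℕ → ℕ) : ℕ → ℕ
  | 0 => 0
  | n + 1 => sumTo f n + f n

lemma sumTo_eq (f : ℕ → ℕ) (n : ℕ) : sumTo f n = ∑ i ∈ range n, f i := by
  induction n with
  | zero => rfl
  | succ n ih => rw [sumTo, ih, sum_range_succ]

/-- `f 0 && ⋯ && f (n - 1)` -/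
def allTo (f : ℕ → Bool) : ℕ → Bool
  | 0 => true
  | n + 1 => allTo f n && f n

lemma allTo_spec (f : ℕ → Bool) (n : ℕ) (h : allTo f n = true) : ∀ i < n, f i = true := by
  induction n with
  | zero => intro i hi; omega
  | succ n ih =>
    rw [allTo, Bool.and_eq_true] at h
    intro i hi
    rcases Nat.lt_succ_iff_lt_or_eq.1 hi with h1 | h1
    · exact ih h.1 i h1
    · rw [h1]; exact h.2

lemma mod_two_pow_succ' (x i : ℕ) :
    x % 2 ^ (i + 1) = x % 2 ^ i + (x.testBit i).toNat * 2 ^ i := by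
  rw [Nat.mod_pow_succ, Nat.testBit_eq_decide_div_mod_eq]
  rcases Nat.mod_two_eq_zero_or_one (x / 2 ^ i) with h | h <;> simp [h]

lemma idx_bits (k x : ℕ) : idx (bits k x) = x % 2 ^ k := by
  induction k with
  | zero => simp [idx, Nat.mod_one]
  | succ k ih =>
    rw [mod_two_pow_succ', ← ih]
    unfold idx
    rw [Fin.sum_univ_castSucc]
    congr 1
    simp only [bits, Fin.val_last]
    have h1 : ((1 : ZMod 2)).val = 1 := rfl
    have h0 : ((0 : ZMod 2)).val = 0 := rfl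
    by_cases h : x.testBit k = true
    · rw [if_pos h, h, h1]; rfl
    · rw [if_neg h, h0, Bool.eq_false_of_not_eq_true h]; rfl

lemma exists_bits {k : ℕ} (v : Fin k → ZMod 2) : ∃ x < 2 ^ k, bits k x = v := by
  have hinj : Function.Injective (fun x : Fin (2 ^ k) => bits k (x : ℕ)) := by
    intro x y h
    exact Fin.ext (bits_inj x.2 y.2 h)
  have hcard : Fintype.card (Fin (2 ^ k)) = Fintype.card (Fin k → ZMod 2) := by
    simp [ZMod.card]
  have hb := (Fintype.bijective_iff_injective_and_card _).2 ⟨hinj, hcard⟩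
  obtain ⟨x, hx⟩ := hb.2 v
  exact ⟨x, x.2, hx⟩

lemma sum_idx (k : ℕ) (f : ℕ → ℕ) :
    ∑ x : Fin k → ZMod 2, f (idx x) = sumTo f (2 ^ k) := by
  rw [sumTo_eq]
  refine sum_nbij' (fun v => idx v) (fun x => bits k x) ?_ ?_ ?_ ?_ ?_
  · intro v _
    obtain ⟨x, hx, rfl⟩ := exists_bits v
    rw [idx_bits, mem_range]
    exact Nat.mod_lt _ (by positivity)
  · intro x _
    exact mem_univ _
  · intro v _
    obtain ⟨x, hx, rfl⟩ := exists_bits v
    show bits k (idx (bits k x)) = bits k x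
    rw [idx_bits, Nat.mod_eq_of_lt hx]
  · intro x hx
    show idx (bits k x) = x
    rw [idx_bits, Nat.mod_eq_of_lt (mem_range.1 hx)]
  · intro v _
    rfl

/-- Boolean test of a potential certificate: `m` cells with codes `cc s = 2^k x + y` in increasing
order, all in the set `mem`, and potentials `F`, `G` for the corners with cells in `mem`. -/
def pchk (k m : ℕ) (cc : ℕ → ℕ) (mem : ℕ → ℕ → Bool) (F G : ℕ → ℕ → ℕ) : Bool :=
  allTo (fun s => Nat.blt (cc s) (2 ^ k * 2 ^ k) && mem (cc s / 2 ^ k) (cc s % 2 ^ k)) m &&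
  allTo (fun s => Nat.blt (cc s) (cc (s + 1))) (m - 1) &&
  allTo (fun x => allTo (fun y => !mem x y || allTo (fun d =>
    Nat.beq d 0 || !mem x (y ^^^ d) || !mem (x ^^^ d) y ||
      Nat.blt (F (x ^^^ d) y + G (x ^^^ d) y) (F x y + G x (y ^^^ d))) (2 ^ k)) (2 ^ k)) (2 ^ k)

theorem pcert_of_chk {k m : ℕ} (cc : ℕ → ℕ) (mem : ℕ → ℕ → Bool) (F G : ℕ → ℕ → ℕ)
    (h : pchk k m cc mem F G = true) :
    PCert (m := m) (fun s => bits k (cc s / 2 ^ k)) (fun s => bits k (cc s % 2 ^ k))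
      (fun s => bits k ((cc s / 2 ^ k) ^^^ (cc s % 2 ^ k)))
      (fun s => (F (cc s / 2 ^ k) (cc s % 2 ^ k) : ℤ))
      (fun s => (G (cc s / 2 ^ k) (cc s % 2 ^ k) : ℤ)) := by
  rw [pchk, Bool.and_eq_true, Bool.and_eq_true] at h
  obtain ⟨⟨h1, h2⟩, h3⟩ := h
  have H1 : ∀ s < m, cc s < 2 ^ k * 2 ^ k ∧ mem (cc s / 2 ^ k) (cc s % 2 ^ k) = true := by
    intro s hs
    have := allTo_spec _ _ h1 s hs
    rw [Bool.and_eq_true, Nat.blt_eq] at this
    exact this
  have H2 : ∀ s, s + 1 < m → cc s < cc (s + 1) := by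
    intro s hs
    have := allTo_spec _ _ h2 s (by omega)
    rwa [Nat.blt_eq] at this
  have H3 : ∀ x < 2 ^ k, ∀ y < 2 ^ k, ∀ d < 2 ^ k, mem x y = true → d ≠ 0 →
      mem x (y ^^^ d) = true → mem (x ^^^ d) y = true →
      F (x ^^^ d) y + G (x ^^^ d) y < F x y + G x (y ^^^ d) := by
    intro x hx y hy d hd m1 hd0 m2 m3
    have k1 := allTo_spec _ _ (allTo_spec _ _ h3 x hx) y hy
    rw [m1, Bool.not_true, Bool.false_or] at k1
    have k2 := allTo_spec _ _ k1 d hd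
    rw [m2, m3] at k2
    simp only [Bool.not_true, Bool.or_false] at k2
    rw [Bool.or_eq_true, Nat.blt_eq] at k2
    rcases k2 with k2 | k2
    · exact absurd (Nat.eq_of_beq_eq_true k2) hd0
    · exact k2
  have hmono : ∀ t, t < m → ∀ s < t, cc s < cc t := by
    intro t
    induction t with
    | zero => intro _ s hs; omega
    | succ t ih =>
      intro ht s hs
      rcases Nat.lt_succ_iff_lt_or_eq.1 hs with h | h
      · exact (ih (by omega) s h).trans (H2 t ht)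
      · rw [h]; exact H2 t ht
  have hcinj : ∀ s t : Fin m, cc s = cc t → s = t := by
    intro s t h
    rcases lt_trichotomy (s : ℕ) (t : ℕ) with h1 | h1 | h1
    · exact absurd h (hmono t t.2 s h1).ne
    · exact Fin.ext h1
    · exact absurd h (hmono s s.2 t h1).ne'
  have hpos : 0 < 2 ^ k := by positivity
  have hxlt : ∀ s : Fin m, cc s / 2 ^ k < 2 ^ k := fun s =>
    (Nat.div_lt_iff_lt_mul hpos).2 (H1 s s.2).1
  have hylt : ∀ s : Fin m, cc s % 2 ^ k < 2 ^ k := fun s => Nat.mod_lt _ hpos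
  have hzlt : ∀ s : Fin m, (cc s / 2 ^ k) ^^^ (cc s % 2 ^ k) < 2 ^ k := fun s =>
    Nat.xor_lt_two_pow (hxlt s) (hylt s)
  have hinj : ∀ s t : Fin m, cc s / 2 ^ k = cc t / 2 ^ k → cc s % 2 ^ k = cc t % 2 ^ k →
      s = t := by
    intro s t h h'
    apply hcinj
    rw [← Nat.div_add_mod (cc s) (2 ^ k), ← Nat.div_add_mod (cc t) (2 ^ k), h, h']
  refine ⟨fun s => bits_sum k _ _, fun s t h h' => hinj s t (bits_inj (hxlt s) (hxlt t) h)
    (bits_inj (hylt s) (hylt t) h'), ?_⟩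
  intro a b c hX hY hZ
  have eX := bits_inj (hxlt a) (hxlt b) hX
  have eY := bits_inj (hylt a) (hylt c) hY
  have eZ := bits_inj (hzlt b) (hzlt c) hZ
  have ma := (H1 a a.2).2
  have mb := (H1 b b.2).2
  have mc := (H1 c c.2).2
  set xa := cc a / 2 ^ k
  set ya := cc a % 2 ^ k
  set xb := cc b / 2 ^ k
  set yb := cc b % 2 ^ k
  set xc := cc c / 2 ^ k
  set yc := cc c % 2 ^ k
  have e1 : yb = ya ^^^ (ya ^^^ yb) := by
    rw [← Nat.xor_assoc, Nat.xor_self, Nat.zero_xor]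
  have e2 : xc = xa ^^^ (ya ^^^ yb) := by
    have : xc = (xc ^^^ yc) ^^^ yc := by
      rw [Nat.xor_assoc, Nat.xor_self, Nat.xor_zero]
    rw [this, ← eZ, ← eX, ← eY, Nat.xor_assoc, Nat.xor_comm yb ya]
  by_cases hd : ya ^^^ yb = 0
  · left
    rw [hd, Nat.xor_zero] at e1 e2
    exact ⟨hinj a b eX e1.symm, hinj a c e2.symm eY⟩
  · right
    have hdlt : ya ^^^ yb < 2 ^ k := Nat.xor_lt_two_pow (hylt a) (hylt b)
    have := H3 xa (hxlt a) ya (hylt a) (ya ^^^ yb) hdlt ma hd (by rw [← e1, eX]; exact mb)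
      (by rw [← e2, eY]; exact mc)
    rw [← e1, ← e2] at this
    rw [← eY, ← eX]
    exact_mod_cast this

/-- Numerical main theorem. -/
theorem pmain_chk {k m D p q : ℕ} (cc : ℕ → ℕ) (mem : ℕ → ℕ → Bool) (F G : ℕ → ℕ → ℕ)
    (an bn cn : ℕ → ℕ) (hD : 0 < D) (hp : 0 < p) (hq : 0 < q)
    (hchk : pchk k m cc mem F G = true)
    (ha : Nat.ble (sumTo (fun x => an x ^ p) (2 ^ k)) (D ^ p) = true)
    (hb : Nat.ble (sumTo (fun x => bn x ^ p) (2 ^ k)) (D ^ p) = true)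
    (hc : Nat.ble (sumTo (fun x => cn x ^ p) (2 ^ k)) (D ^ p) = true)
    (hC : Nat.blt (D ^ (3 * q)) (sumTo (fun s => (an (cc s / 2 ^ k) * bn (cc s % 2 ^ k)
      * cn ((cc s / 2 ^ k) ^^^ (cc s % 2 ^ k))) ^ q) m) = true) :
    ∃ n0 : ℕ, ∀ n : ℕ, n0 ≤ n → ∃ S : Finset ((Fin n → ZMod 2) × (Fin n → ZMod 2)),
      CornerFree S ∧ 2 ^ (3 * q * n) ≤ S.card ^ p := by
  have hcert := pcert_of_chk cc mem F G hchk
  rw [pchk, Bool.and_eq_true, Bool.and_eq_true] at hchk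
  have H1 : ∀ s < m, cc s < 2 ^ k * 2 ^ k := by
    intro s hs
    have := allTo_spec _ _ hchk.1.1 s hs
    rw [Bool.and_eq_true, Nat.blt_eq] at this
    exact this.1
  have hpos : 0 < 2 ^ k := by positivity
  have hD' : (0 : ℝ) < D := by exact_mod_cast hD
  have norm : ∀ f : ℕ → ℕ, Nat.ble (sumTo (fun x => f x ^ p) (2 ^ k)) (D ^ p) = true →
      ∑ x : Fin k → ZMod 2, ((f (idx x) : ℝ) / D) ^ p ≤ 1 := by
    intro f hf
    have hf2 := Nat.le_of_ble_eq_true hf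
    rw [← sum_idx k (fun x => f x ^ p)] at hf2
    simp_rw [div_pow]
    rw [← sum_div, div_le_one (by positivity)]
    exact_mod_cast hf2
  refine pmain hcert (fun x => (an (idx x) : ℝ) / D) (fun x => (bn (idx x) : ℝ) / D)
    (fun x => (cn (idx x) : ℝ) / D)
    (fun x => by positivity) (fun x => by positivity) (fun x => by positivity) p q hp hq
    (norm an ha) (norm bn hb) (norm cn hc) ?_
  have hxlt : ∀ s : Fin m, cc s / 2 ^ k < 2 ^ k := fun s =>
    (Nat.div_lt_iff_lt_mul hpos).2 (H1 s s.2)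
  have hylt : ∀ s : Fin m, cc s % 2 ^ k < 2 ^ k := fun s => Nat.mod_lt _ hpos
  have hzlt : ∀ s : Fin m, (cc s / 2 ^ k) ^^^ (cc s % 2 ^ k) < 2 ^ k := fun s =>
    Nat.xor_lt_two_pow (hxlt s) (hylt s)
  have e : ∀ s : Fin m, ((an (idx (bits k (cc s / 2 ^ k))) : ℝ) / D *
      ((bn (idx (bits k (cc s % 2 ^ k))) : ℝ) / D)
      * ((cn (idx (bits k ((cc s / 2 ^ k) ^^^ (cc s % 2 ^ k)))) : ℝ) / D)) ^ q
      = (((an (cc s / 2 ^ k) * bn (cc s % 2 ^ k)
        * cn ((cc s / 2 ^ k) ^^^ (cc s % 2 ^ k))) ^ q : ℕ) : ℝ) / (D : ℝ) ^ (3 * q) := by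
    intro s
    rw [idx_bits, idx_bits, idx_bits, Nat.mod_eq_of_lt (hxlt s), Nat.mod_eq_of_lt (hylt s),
      Nat.mod_eq_of_lt (hzlt s), pow_mul, Nat.cast_pow, ← div_pow]
    congr 1
    push_cast
    field_simp
  rw [sum_congr rfl (fun s _ => e s), ← sum_div, one_lt_div (by positivity)]
  rw [Nat.blt_eq, sumTo_eq, ← Fin.sum_univ_eq_sum_range] at hC
  exact_mod_cast hC

end Pool.Agent.E8helper26.Corner
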